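import Pool.Agent.W188.GP.Stm

set_option autoImplicit false

/-! Project GP, part OFF: the kernel `sin(πx)/(n-j-x)`. -/

open Complex MeasureTheory Set Filter Topology

namespace Pool.Agent.W67.GP

open Pool.Agent.W188.GP

/-- the bound of the correction kernel -/
noncomputable def kap (m : ℤ) : ℝ := (if m = 0 then 4 else 0) + 4 * (1 / (m : ℝ) ^ 2)

theorem kap_pos (m : ℤ) : 0 < kap m := by
  unfold kap
  split_ifs with h
  · subst h; norm_num
  · have : (m : ℝ) ≠ 0 := by exact_mod_cast h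
    positivity

theorem kap_sum : ∃ K : ℝ, 0 < K ∧ ∀ (F : Finset ℤ) (f : ℤ → ℤ), Function.Injective f →
    ∑ n ∈ F, kap (f n) ≤ K := by
  have h1 : Summable fun m : ℤ => (1 : ℝ) / (m : ℝ) ^ 2 :=
    Real.summable_one_div_int_pow.2 (by norm_num)
  have h2 : Summable fun m : ℤ => (if m = 0 then (4 : ℝ) else 0) :=
    (hasSum_ite_eq (0 : ℤ) (4 : ℝ)).summable
  have h3 : Summable kap := h2.add (h1.mul_left 4)
  refine ⟨∑' m, kap m, ?_, ?_⟩
  · exact h3.tsum_pos (fun m => (kap_pos m).le) 0 (kap_pos 0)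
  · intro F f hf
    rw [← Finset.sum_image (f := kap) (g := f) (fun a _ b _ h => hf h)]
    exact h3.sum_le_tsum _ (fun m _ => (kap_pos m).le)

/-- Jensen for weights with bounded sum -/
theorem jensen (p : ℝ) (hp : 1 < p) (S : Finset ℤ) (w z : ℤ → ℝ) (hw : ∀ n, 0 < w n)
    (hz : ∀ n, 0 ≤ z n) (K : ℝ) (hK : ∑ n ∈ S, w n ≤ K) :
    (∑ n ∈ S, w n * z n) ^ p ≤ K ^ (p - 1) * ∑ n ∈ S, w n * z n ^ p := by
  rcases S.eq_empty_or_nonempty with rfl | hS
  · simp only [Finset.sum_empty, mul_zero]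
    rw [Real.zero_rpow (by linarith)]
  set W := ∑ n ∈ S, w n with hW
  have hWpos : 0 < W := Finset.sum_pos (fun n _ => hw n) hS
  have h1 := Real.rpow_arith_mean_le_arith_mean_rpow S (fun n => w n / W) z
    (fun n _ => (div_pos (hw n) hWpos).le)
    (by rw [← Finset.sum_div, ← hW, div_self hWpos.ne']) (fun n _ => hz n) hp.le
  have h2 : ∑ n ∈ S, w n / W * z n = (∑ n ∈ S, w n * z n) / W := by
    rw [Finset.sum_div]
    exact Finset.sum_congr rfl fun n _ => by ring
  have h3 : ∑ n ∈ S, w n / W * z n ^ p = (∑ n ∈ S, w n * z n ^ p) / W := by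
    rw [Finset.sum_div]
    exact Finset.sum_congr rfl fun n _ => by ring
  have h4 : 0 ≤ ∑ n ∈ S, w n * z n := Finset.sum_nonneg fun n _ => mul_nonneg (hw n).le (hz n)
  have h5 : 0 ≤ ∑ n ∈ S, w n * z n ^ p :=
    Finset.sum_nonneg fun n _ => mul_nonneg (hw n).le (Real.rpow_nonneg (hz n) p)
  simp only [h2, h3] at h1
  rw [Real.div_rpow h4 hWpos.le, div_le_div_iff₀ (Real.rpow_pos_of_pos hWpos p) hWpos] at h1
  have h6 : W ^ p = W ^ (p - 1) * W := by
    rw [← Real.rpow_add_one hWpos.ne']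
    congr 1
    ring
  rw [h6] at h1
  have h7 : (∑ n ∈ S, w n * z n) ^ p ≤ W ^ (p - 1) * ∑ n ∈ S, w n * z n ^ p := by
    have h8 : (∑ n ∈ S, w n * z n) ^ p * W ≤ (W ^ (p - 1) * ∑ n ∈ S, w n * z n ^ p) * W := by
      linarith
    exact le_of_mul_le_mul_right h8 hWpos
  exact h7.trans (mul_le_mul_of_nonneg_right
    (Real.rpow_le_rpow hWpos.le hK (by linarith)) h5)

/-- Young's inequality -/
theorem young (p : ℝ) (hp : 1 < p) (K : ℝ) (hK0 : 0 < K)
    (hK : ∀ (F : Finset ℤ) (f : ℤ → ℤ), Function.Injective f → ∑ n ∈ F, kap (f n) ≤ K)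
    (S S' : Finset ℤ) (z : ℤ → ℝ) (hz : ∀ n, 0 ≤ z n) :
    ∑ j ∈ S', (∑ n ∈ S, kap (n - j) * z n) ^ p ≤ K ^ p * ∑ n ∈ S, z n ^ p := by
  have h1 : ∀ j ∈ S', (∑ n ∈ S, kap (n - j) * z n) ^ p ≤
      K ^ (p - 1) * ∑ n ∈ S, kap (n - j) * z n ^ p := by
    intro j _
    exact jensen p hp S (fun n => kap (n - j)) z (fun n => kap_pos _) hz K
      (hK S (fun n => n - j) (fun a b h => by simpa using h))
  refine (Finset.sum_le_sum h1).trans ?_
  rw [← Finset.mul_sum, Finset.sum_comm]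
  have h2 : ∑ n ∈ S, ∑ j ∈ S', kap (n - j) * z n ^ p ≤ K * ∑ n ∈ S, z n ^ p := by
    rw [Finset.mul_sum]
    refine Finset.sum_le_sum fun n _ => ?_
    rw [← Finset.sum_mul]
    exact mul_le_mul_of_nonneg_right
      (hK S' (fun j => n - j) (fun a b h => by simpa using h)) (Real.rpow_nonneg (hz n) p)
  have h3 : K ^ p = K ^ (p - 1) * K := by
    rw [← Real.rpow_add_one hK0.ne']
    congr 1
    ring
  rw [h3, mul_assoc]
  exact mul_le_mul_of_nonneg_left h2 (Real.rpow_nonneg hK0.le _)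

/-- the correction kernel -/
noncomputable def Ek (x : ℝ) (m : ℤ) : ℝ :=
  if m = 0 then -(Real.sin (Real.pi * x) / x)
  else Real.sin (Real.pi * x) * (x / ((m : ℝ) * (m - x)))

theorem Ek_bound (x : ℝ) (hx0 : 0 < x) (hx1 : x < 1) (m : ℤ) : |Ek x m| ≤ kap m := by
  have hπ := Real.pi_pos
  have hπ4 := Real.pi_le_four
  have hs0 : 0 ≤ Real.sin (Real.pi * x) :=
    Real.sin_nonneg_of_nonneg_of_le_pi (by positivity) (by nlinarith)
  have hs1 : Real.sin (Real.pi * x) ≤ Real.pi * x := Real.sin_le (by positivity)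
  have hs2 : Real.sin (Real.pi * x) ≤ Real.pi * (1 - x) := by
    have h1 : Real.sin (Real.pi * x) = Real.sin (Real.pi * (1 - x)) := by
      rw [← Real.sin_pi_sub]
      congr 1
      ring
    rw [h1]
    exact Real.sin_le (mul_nonneg hπ.le (by linarith))
  unfold Ek kap
  by_cases hm : m = 0
  · rw [if_pos hm, if_pos hm, hm, abs_neg, abs_of_nonneg (div_nonneg hs0 hx0.le)]
    have h1 : Real.sin (Real.pi * x) / x ≤ Real.pi := by
      rw [div_le_iff₀ hx0]; exact hs1
    norm_num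
    linarith
  · rw [if_neg hm, if_neg hm, zero_add]
    rcases lt_or_gt_of_ne hm with h | h
    · -- m ≤ -1
      have hmr : (m : ℝ) ≤ -1 := by exact_mod_cast (by omega : m ≤ -1)
      have h2 : 0 < (m : ℝ) * (m - x) := mul_pos_of_neg_of_neg (by linarith) (by linarith)
      rw [abs_of_nonneg (mul_nonneg hs0 (div_nonneg hx0.le h2.le))]
      have h3 : (m : ℝ) ^ 2 ≤ (m : ℝ) * (m - x) := by nlinarith
      have h4 : 0 < (m : ℝ) ^ 2 := by nlinarith
      have h5 : x / ((m : ℝ) * (m - x)) ≤ 1 / (m : ℝ) ^ 2 := by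
        rw [div_le_div_iff₀ h2 h4]
        nlinarith
      have h6 : Real.sin (Real.pi * x) ≤ 4 := (Real.sin_le_one _).trans (by norm_num)
      exact mul_le_mul h6 h5 (div_nonneg hx0.le h2.le) (by norm_num)
    · have hmr : (1 : ℝ) ≤ m := by exact_mod_cast (by omega : 1 ≤ m)
      have h2 : 0 < (m : ℝ) * (m - x) := mul_pos (by linarith) (by linarith)
      rw [abs_of_nonneg (mul_nonneg hs0 (div_nonneg hx0.le h2.le))]
      have h3 : (m : ℝ) * (1 - x) ≤ m - x := by nlinarith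
      have h4 : 0 < (m : ℝ) ^ 2 := by positivity
      have hx1' : 0 < 1 - x := by linarith
      have h5 : Real.sin (Real.pi * x) * (x / ((m : ℝ) * (m - x))) ≤
          Real.pi * (1 - x) * (1 / ((m : ℝ) * (m * (1 - x)))) := by
        refine mul_le_mul hs2 ?_ (div_nonneg hx0.le h2.le) (mul_nonneg hπ.le hx1'.le)
        have h6 : 0 < (m : ℝ) * (m * (1 - x)) := by positivity
        exact div_le_div₀ zero_le_one hx1.le h6 (mul_le_mul_of_nonneg_left h3 (by linarith))
      refine h5.trans ?_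
      have h7 : Real.pi * (1 - x) * (1 / ((m : ℝ) * (m * (1 - x)))) = Real.pi * (1 / (m : ℝ) ^ 2) := by
        field_simp
      rw [h7]
      exact mul_le_mul_of_nonneg_right hπ4 (by positivity)

theorem kernel_eq (x : ℝ) (hx0 : 0 < x) (hx1 : x < 1) (n j : ℤ) :
    (Real.sin (Real.pi * x) : ℂ) * (1 / ((n : ℂ) - j - x)) =
      -((Real.sin (Real.pi * x) : ℂ) * hk (j - n)) + (Ek x (n - j) : ℂ) := by
  unfold hk Ek
  have hx0' : (x : ℂ) ≠ 0 := by exact_mod_cast hx0.ne'
  by_cases h : n = j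
  · subst h
    rw [if_pos (sub_self n), if_pos (sub_self n), sub_self, zero_sub, mul_zero, neg_zero, zero_add]
    push_cast
    field_simp
  · have h1 : j - n ≠ 0 := sub_ne_zero.2 (Ne.symm h)
    have h2 : n - j ≠ 0 := sub_ne_zero.2 h
    rw [if_neg h1, if_neg h2]
    have h3 : ((n : ℂ) - j) ≠ 0 := by
      have : ((n - j : ℤ) : ℂ) ≠ 0 := by exact_mod_cast h2
      push_cast at this
      exact this
    have h4 : ((n : ℂ) - j - x) ≠ 0 := by
      intro h5
      have h6 : ((n : ℝ) - j - x) = 0 := by exact_mod_cast h5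
      have h7 : x = ((n - j : ℤ) : ℝ) := by push_cast; linarith
      rw [h7] at hx0 hx1
      have h8 : 0 < n - j := by exact_mod_cast hx0
      have h9 : n - j < 1 := by exact_mod_cast hx1
      omega
    have h5 : ((j : ℂ) - n) ≠ 0 := by
      have : ((j : ℂ) - n) = -((n : ℂ) - j) := by ring
      rw [this]
      exact neg_ne_zero.2 h3
    push_cast
    have e1 : ((j : ℂ) - n) = -((n : ℂ) - j) := by ring
    rw [e1]
    field_simp
    ring

theorem gp_off (h : StHp) : StOff := by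
  intro p hp
  obtain ⟨h0, hh0, hHB⟩ := h p hp
  obtain ⟨K, hK0, hK⟩ := kap_sum
  refine ⟨2 ^ p * (h0 ^ p + K ^ p), by positivity, ?_⟩
  intro x hx0 hx1 S S' a
  have hp0 : 0 ≤ p := by linarith
  have key : ∀ j : ℤ, ‖(Real.sin (Real.pi * x) : ℂ) * ∑ n ∈ S, a n / ((n : ℂ) - j - x)‖ ≤
      ‖HT S a j‖ + ∑ n ∈ S, kap (n - j) * ‖a n‖ := by
    intro j
    have e1 : (Real.sin (Real.pi * x) : ℂ) * ∑ n ∈ S, a n / ((n : ℂ) - j - x) =
        -((Real.sin (Real.pi * x) : ℂ) * HT S a j) + ∑ n ∈ S, (Ek x (n - j) : ℂ) * a n := by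
      unfold HT
      rw [Finset.mul_sum, Finset.mul_sum, ← Finset.sum_neg_distrib, ← Finset.sum_add_distrib]
      refine Finset.sum_congr rfl fun n _ => ?_
      have := kernel_eq x hx0 hx1 n j
      linear_combination (a n) * this
    rw [e1]
    refine (norm_add_le _ _).trans (add_le_add ?_ ?_)
    · rw [norm_neg, norm_mul, Complex.norm_real, Real.norm_eq_abs]
      calc |Real.sin (Real.pi * x)| * ‖HT S a j‖ ≤ 1 * ‖HT S a j‖ :=
            mul_le_mul_of_nonneg_right (Real.abs_sin_le_one _) (norm_nonneg _)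
        _ = ‖HT S a j‖ := one_mul _
    · refine (norm_sum_le _ _).trans (Finset.sum_le_sum fun n _ => ?_)
      rw [norm_mul, Complex.norm_real, Real.norm_eq_abs]
      exact mul_le_mul_of_nonneg_right (Ek_bound x hx0 hx1 _) (norm_nonneg _)
  have key2 : ∀ u v : ℝ, 0 ≤ u → 0 ≤ v → (u + v) ^ p ≤ 2 ^ p * (u ^ p + v ^ p) := by
    intro u v hu hv
    have hu' := Real.rpow_nonneg hu p
    have hv' := Real.rpow_nonneg hv p
    have h2p : 0 < (2 : ℝ) ^ p := by positivity
    rcases le_total u v with huv | huv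
    · calc (u + v) ^ p ≤ (2 * v) ^ p := Real.rpow_le_rpow (by linarith) (by linarith) hp0
        _ = 2 ^ p * v ^ p := Real.mul_rpow (by norm_num) hv
        _ ≤ 2 ^ p * (u ^ p + v ^ p) := mul_le_mul_of_nonneg_left (by linarith) h2p.le
    · calc (u + v) ^ p ≤ (2 * u) ^ p := Real.rpow_le_rpow (by linarith) (by linarith) hp0
        _ = 2 ^ p * u ^ p := Real.mul_rpow (by norm_num) hu
        _ ≤ 2 ^ p * (u ^ p + v ^ p) := mul_le_mul_of_nonneg_left (by linarith) h2p.le
  have key3 : ∀ j ∈ S', ‖(Real.sin (Real.pi * x) : ℂ) * ∑ n ∈ S, a n / ((n : ℂ) - j - x)‖ ^ p ≤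
      2 ^ p * (‖HT S a j‖ ^ p + (∑ n ∈ S, kap (n - j) * ‖a n‖) ^ p) := by
    intro j _
    refine (Real.rpow_le_rpow (norm_nonneg _) (key j) hp0).trans ?_
    exact key2 _ _ (norm_nonneg _)
      (Finset.sum_nonneg fun n _ => mul_nonneg (kap_pos _).le (norm_nonneg _))
  refine (Finset.sum_le_sum key3).trans ?_
  rw [← Finset.mul_sum, Finset.sum_add_distrib, mul_assoc, add_mul]
  refine mul_le_mul_of_nonneg_left (add_le_add (hHB S S' a) ?_) (by positivity)
  exact young p hp K hK0 hK S S' (fun n => ‖a n‖) (fun n => norm_nonneg _)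

end Pool.Agent.W67.GP
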